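import Pool.Agent.H17.KSeq

set_option autoImplicit false

namespace Pool.Agent.Results.MP_3fd052_nt.Counter

/-- the lower degree of `K`: the infimum (in `ℕ∞`) of the positive `d` that occur infinitely often
as a difference of consecutive terms -/
noncomputable def lowerDeg (k : ℕ → ℕ) : ℕ∞ :=
  ⨅ d ∈ {d : ℕ | 1 ≤ d ∧ {n : ℕ | k (n + 1) - k n = d}.Infinite}, (d : ℕ∞)

/-- `b` is a `K`-sequence -/
def IsKSeq (k : ℕ → ℕ) (b : ℕ → ℤ) : Prop :=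
  (∀ n i : ℕ, k n ≤ i → i < k (n + 1) → b i = b (k n)) ∧
  (∀ n : ℕ, b (k (n + 1)) - b (k n) = b (n + 1))

theorem result :
    (∃ (k : ℕ → ℕ) (b : ℕ → ℤ), k 0 = 0 ∧ StrictMono k ∧ 3 ≤ lowerDeg k ∧ IsKSeq k b ∧
      ∀ n, ¬ (11 : ℤ) ∣ b n) ∧
    ¬ (∀ (k : ℕ → ℕ) (b : ℕ → ℤ) (h : ℕ), k 0 = 0 → StrictMono k → 3 ≤ lowerDeg k → IsKSeq k b →
      1 ≤ h → {n : ℕ | (h : ℤ) ∣ b n}.Infinite) := by
  have main : ∃ (k : ℕ → ℕ) (b : ℕ → ℤ), k 0 = 0 ∧ StrictMono k ∧ 3 ≤ lowerDeg k ∧ IsKSeq k b ∧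
      ∀ n, ¬ (11 : ℤ) ∣ b n := by
    open Pool.Agent.H17.KSeq in
    refine ⟨k, fun n => B (pi n), rfl, k_mono, ?_, ⟨fun n i h1 h2 => ?_, fun n => ?_⟩,
      fun n => B_ne _⟩
    · refine le_iInf₂ fun d hd => ?_
      obtain ⟨n, hn⟩ := hd.2.nonempty
      have := Pool.Agent.H17.KSeq.k_step n
      have h3 : 3 ≤ d := by simp only [Set.mem_ofPred_eq] at hn; omega
      exact_mod_cast h3
    · simp only [Pool.Agent.H17.KSeq.pi_eq n i h1 h2,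
        Pool.Agent.H17.KSeq.pi_eq n _ le_rfl (Pool.Agent.H17.KSeq.k_mono (Nat.lt_succ_self n))]
    · obtain ⟨a, b, -⟩ := Pool.Agent.H17.KSeq.pi_spec (n + 1)
      simp only [Pool.Agent.H17.KSeq.pi_eq n _ le_rfl
          (Pool.Agent.H17.KSeq.k_mono (Nat.lt_succ_self n)),
        Pool.Agent.H17.KSeq.pi_eq (n + 1) _ le_rfl
          (Pool.Agent.H17.KSeq.k_mono (Nat.lt_succ_self (n + 1))),
        Pool.Agent.H17.KSeq.B_rec _ n a b]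
      ring
  refine ⟨main, fun H => ?_⟩
  obtain ⟨k, b, h0, h1, h2, h3, h4⟩ := main
  obtain ⟨n, hn⟩ := (H k b 11 h0 h1 h2 h3 (by norm_num)).nonempty
  exact h4 n hn

end Pool.Agent.Results.MP_3fd052_nt.Counter
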